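import Pool.Agent.Helper82.SG.St

/-!
# Module HAU of project SG: networks and Hausdorff measure
-/

set_option autoImplicit false

namespace Pool.Agent.Helper98.SG

open Finset Real MeasureTheory Pool.Agent.Helper77.Steiner Pool.Agent.Helper82.SG
open Pool.Agent.Helper18.GP (nlen NConn)
open scoped ENNReal

private lemma isClosed_segm {E : Type} [NormedAddCommGroup E] [NormedSpace ℝ E] (p w : E) :
    IsClosed (segment ℝ p w) := by
  rw [segment_eq_image_lineMap]
  exact (isCompact_Icc.image (AffineMap.lineMap_continuous)).isClosed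

private lemma net_set {E : Type} [NormedAddCommGroup E] [NormedSpace ℝ E] [MeasurableSpace E]
    [BorelSpace E] {V : Finset E} {l : ℝ} (h : Net V l) :
    ∃ S : Set E, IsClosed S ∧ IsConnected S ∧ (V : Set E) ⊆ S ∧ μH[1] S ≤ ENNReal.ofReal l ∧ 0 ≤ l := by
  classical
  induction h with
  | single v =>
    have := Measure.nullSingletonClass_hausdorff E (d := 1) one_pos
    refine ⟨{v}, isClosed_singleton, isConnected_singleton, by simp, ?_, le_rfl⟩
    rw [measure_singleton]
    exact bot_le
  | @step V l h p hp w ih =>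
    obtain ⟨S, h1, h2, h3, h4, h5⟩ := ih
    have hpS : p ∈ S := h3 hp
    refine ⟨S ∪ segment ℝ p w, h1.union (isClosed_segm p w), ?_, ?_, ?_, by positivity⟩
    · exact IsConnected.union ⟨p, hpS, left_mem_segment ℝ p w⟩ h2
        ((convex_segment p w).isConnected ⟨p, left_mem_segment ℝ p w⟩)
    · intro x hx
      rw [Finset.mem_coe, Finset.mem_insert] at hx
      rcases hx with rfl | hx
      · exact Or.inr (right_mem_segment ℝ p x)
      · exact Or.inl (h3 hx)
    · refine (measure_union_le _ _).trans ?_
      rw [hausdorffMeasure_segment, edist_dist, ENNReal.ofReal_add h5 dist_nonneg]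
      exact add_le_add h4 le_rfl

theorem hHAU : StHAU := by
  intro E _ _ _ _ B V l hN hBV
  obtain ⟨S, h1, h2, h3, h4, -⟩ := net_set hN
  have hS : S ∪ (B : Set E) = S := by
    refine Set.union_eq_self_of_subset_right fun x hx => h3 ?_
    exact Finset.mem_coe.2 (hBV (Finset.mem_coe.1 hx))
  refine le_trans ?_ h4
  unfold steinerLen
  exact iInf₂_le_of_le S h1 (iInf_le_of_le (by rw [hS]; exact h2) le_rfl)

end Pool.Agent.Helper98.SG
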